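import Pool.Agent.H89.Pos

/-!
# Tangent spaces of affine hypersurfaces in `ℂ³` (MP_7c460f_an)
-/

set_option autoImplicit false

namespace Pool.Agent.H89.IR

open MvPolynomial

theorem totalDegree_pderiv_lt (p : MvPolynomial (Fin 3) ℂ) (hp : 0 < p.totalDegree) (i : Fin 3) :
    (pderiv i p).totalDegree < p.totalDegree := by
  refine totalDegree_lt_of_coeff hp fun β hβ => ?_
  have h1 : ∀ s ∈ p.support, coeff β (pderiv i (monomial s (coeff s p))) = 0 := by
    intro s hs
    rw [pderiv_monomial, coeff_monomial]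
    split_ifs with h
    · by_cases hsi : s i = 0
      · rw [hsi]
        simp
      · exfalso
        have h2 : s.degree ≤ p.totalDegree := by
          have := le_totalDegree hs
          have h2' : (s.sum fun _ e => e) = s.degree := (Finsupp.degree_apply s).symm
          rwa [h2'] at this
        have h3 : s = β + Finsupp.single i 1 := by
          rw [← h]
          refine (tsub_add_cancel_of_le ?_).symm
          rw [Finsupp.single_le_iff]
          omega
        have h4 : s.degree = β.degree + 1 := by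
          rw [h3, map_add, Finsupp.degree_single]
        omega
    · rfl
  conv_lhs => rw [p.as_sum]
  rw [map_sum, coeff_sum]
  exact Finset.sum_eq_zero h1

/-- derivative in the direction `v` -/
noncomputable def dir (v : Fin 3 → ℂ) (p : MvPolynomial (Fin 3) ℂ) : MvPolynomial (Fin 3) ℂ :=
  ∑ i, C (v i) * pderiv i p

theorem eval_dir (v z : Fin 3 → ℂ) (p : MvPolynomial (Fin 3) ℂ) :
    eval z (dir v p) = ∑ i, v i * eval z (pderiv i p) := by
  simp [dir]

theorem totalDegree_dir_lt (v : Fin 3 → ℂ) (p : MvPolynomial (Fin 3) ℂ)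
    (hp : 0 < p.totalDegree) : (dir v p).totalDegree < p.totalDegree := by
  refine lt_of_le_of_lt (totalDegree_finsetSum_le (d := p.totalDegree - 1) ?_) (by omega)
  intro i _
  have h1 := totalDegree_mul (C (v i)) (pderiv i p)
  rw [totalDegree_C, zero_add] at h1
  have h2 := totalDegree_pderiv_lt p hp i
  omega

/-- Nullstellensatz for a squarefree polynomial. -/
theorem dvd_of_vanish {P Q : MvPolynomial (Fin 3) ℂ} (hP : Squarefree P)
    (h : ∀ z : Fin 3 → ℂ, eval z P = 0 → eval z Q = 0) : P ∣ Q := by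
  have h1 : Q ∈ vanishingIdeal ℂ (zeroLocus ℂ (Ideal.span {P})) := by
    rw [mem_vanishingIdeal_iff]
    intro z hz
    rw [mem_zeroLocus_iff] at hz
    have h2 := hz P (Ideal.mem_span_singleton_self P)
    have he : ∀ R : MvPolynomial (Fin 3) ℂ, aeval z R = eval z R := fun R => by
      rw [aeval_eq_eval]
    rw [he] at h2 ⊢
    exact h z h2
  rw [vanishingIdeal_zeroLocus_eq_radical] at h1
  obtain ⟨n, hn⟩ := h1
  rw [Ideal.mem_span_singleton] at hn
  by_cases h0 : n = 0
  · rw [h0, pow_zero] at hn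
    exact hn.trans (one_dvd Q)
  · exact (hP.dvd_pow_iff_dvd h0).1 hn

theorem eq_zero_of_dvd {P Q : MvPolynomial (Fin 3) ℂ} (h : P ∣ Q)
    (hd : Q.totalDegree < P.totalDegree) : Q = 0 := by
  by_contra hQ
  obtain ⟨R, rfl⟩ := h
  have hP0 : P ≠ 0 := left_ne_zero_of_mul hQ
  have hR0 : R ≠ 0 := right_ne_zero_of_mul hQ
  rw [totalDegree_mul_of_isDomain hP0 hR0] at hd
  omega

/-- If the derivative in the direction `v` is zero then the polynomial is invariant. -/
theorem inv_of_dir {P : MvPolynomial (Fin 3) ℂ} {v : Fin 3 → ℂ} (h : dir v P = 0)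
    (z : Fin 3 → ℂ) : eval (z + v) P = eval z P := by
  have h1 : ∀ s : ℂ, HasDerivAt (fun s : ℂ => eval (z + s • v) P) 0 s := by
    intro s
    have h2 := (hasStrictFDerivAt_eval P (z + s • v)).hasFDerivAt
    have h3 : HasDerivAt (fun s : ℂ => z + s • v) v s := by
      have := ((hasDerivAt_id s).smul_const v).const_add z
      simpa using this
    have h4 := h2.comp_hasDerivAt s h3
    rw [linForm_apply] at h4
    have h5 : ∑ i, eval (z + s • v) (pderiv i P) * v i = 0 := by
      have := eval_dir v (z + s • v) P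
      rw [h, map_zero] at this
      rw [this]
      exact Finset.sum_congr rfl fun i _ => mul_comm _ _
    rw [h5] at h4
    exact h4
  have h6 := is_const_of_deriv_eq_zero (fun s => (h1 s).differentiableAt)
    (fun s => (h1 s).deriv) 1 0
  simpa using h6

/-- A squarefree polynomial in one linear form has no critical zero. -/
theorem grad_ne_zero {P : MvPolynomial (Fin 3) ℂ} (hP : Squarefree P) {w : Fin 3 → ℂ}
    (hw : w ≠ 0) (hinv : ∀ v : Fin 3 → ℂ, ∑ i, w i * v i = 0 →
      ∀ z : Fin 3 → ℂ, eval (z + v) P = eval z P)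
    {p : Fin 3 → ℂ} (hp : eval p P = 0) : ∃ i, eval p (pderiv i P) ≠ 0 := by
  by_contra hcon
  push Not at hcon
  obtain ⟨k, hk⟩ := Function.ne_iff.1 hw
  have hk' : w k ≠ 0 := hk
  set e : Fin 3 → ℂ := Pi.single k (w k)⁻¹ with he
  have hwe : ∑ i, w i * e i = 1 := by
    rw [Finset.sum_eq_single k]
    · rw [he, Pi.single_eq_same, mul_inv_cancel₀ hk']
    · intro i _ hi
      rw [he, Pi.single_eq_of_ne hi, mul_zero]
    · intro h
      exact absurd (Finset.mem_univ k) h
  set π : Polynomial ℂ := line P p e with hπ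
  have hπe : ∀ T, π.eval T = eval (p + T • e) P := eval_line P p e
  have hroot : π.eval 0 = 0 := by
    rw [hπe, zero_smul, add_zero, hp]
  have hder : (Polynomial.derivative π).eval 0 = 0 := by
    have h1 : HasDerivAt (fun T => π.eval T) ((Polynomial.derivative π).eval 0) 0 :=
      π.hasDerivAt 0
    have h2 := (hasStrictFDerivAt_eval P (p + (0 : ℂ) • e)).hasFDerivAt
    have h3 : HasDerivAt (fun s : ℂ => p + s • e) e 0 := by
      have := ((hasDerivAt_id (0 : ℂ)).smul_const e).const_add p
      simpa using this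
    have h4 := h2.comp_hasDerivAt (0 : ℂ) h3
    rw [linForm_apply] at h4
    have h5 : (fun T => π.eval T) = (fun z : Fin 3 → ℂ => eval z P) ∘ fun s : ℂ => p + s • e := by
      funext T
      exact hπe T
    rw [h5] at h1
    rw [h1.unique h4]
    refine Finset.sum_eq_zero fun i _ => ?_
    rw [zero_smul, add_zero, hcon i, zero_mul]
  -- `X ^ 2` divides `π`
  obtain ⟨τ, hτ⟩ : ∃ τ : Polynomial ℂ, π = Polynomial.X * (Polynomial.X * τ) := by
    have hd1 : Polynomial.X ∣ π := Polynomial.X_dvd_iff.2 (by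
      rw [Polynomial.coeff_zero_eq_eval_zero]
      exact hroot)
    obtain ⟨ρ, hρ⟩ := hd1
    have h1 : ρ.eval 0 = 0 := by
      rw [hρ, Polynomial.derivative_mul, Polynomial.derivative_X, one_mul, Polynomial.eval_add,
        Polynomial.eval_mul, Polynomial.eval_X, zero_mul, add_zero] at hder
      exact hder
    have hd2 : Polynomial.X ∣ ρ := Polynomial.X_dvd_iff.2 (by
      rw [Polynomial.coeff_zero_eq_eval_zero]
      exact h1)
    obtain ⟨τ, hτ⟩ := hd2
    exact ⟨τ, by rw [hρ, hτ]⟩
  set ℓ : MvPolynomial (Fin 3) ℂ := ∑ i, C (w i) * X i - C (∑ i, w i * p i) with hℓ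
  have hℓe : ∀ z : Fin 3 → ℂ, eval z ℓ = ∑ i, w i * z i - ∑ i, w i * p i := by
    intro z
    rw [hℓ]
    simp
  have hPπ : ∀ z : Fin 3 → ℂ, eval z P = π.eval (eval z ℓ) := by
    intro z
    rw [hπe, hℓe]
    set s := ∑ i, w i * z i - ∑ i, w i * p i with hs
    have h1 := hinv (z - (p + s • e)) (by
      have : ∀ i, w i * (z - (p + s • e)) i = w i * z i - w i * p i - s * (w i * e i) := by
        intro i
        simp only [Pi.sub_apply, Pi.add_apply, Pi.smul_apply, smul_eq_mul]
        ring
      simp only [this, Finset.sum_sub_distrib, ← Finset.mul_sum]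
      rw [hwe, mul_one, ← hs, sub_self]) (p + s • e)
    rw [← h1]
    congr 2
    abel
  have hfac : P = ℓ * ℓ * Polynomial.aeval ℓ τ := by
    apply MvPolynomial.funext
    intro z
    rw [hPπ z, hτ, map_mul, map_mul]
    have h1 : eval z (Polynomial.aeval ℓ τ) = τ.eval (eval z ℓ) := by
      rw [Polynomial.aeval_def, Polynomial.eval₂_eq_sum_range, map_sum,
        Polynomial.eval_eq_sum_range]
      refine Finset.sum_congr rfl fun i _ => ?_
      rw [map_mul, map_pow, algebraMap_eq, eval_C]
    rw [h1, Polynomial.eval_mul, Polynomial.eval_mul, Polynomial.eval_X]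
    ring
  have hu := hP ℓ ⟨_, hfac⟩
  have h2 := hu.map (eval p)
  rw [hℓe, sub_self] at h2
  exact not_isUnit_zero h2

/-- the gradient -/
noncomputable def grad (P : MvPolynomial (Fin 3) ℂ) (z : Fin 3 → ℂ) : Fin 3 → ℂ :=
  fun i => eval z (pderiv i P)

theorem exists_grad_ne {P : MvPolynomial (Fin 3) ℂ} (hP : Squarefree P) {p : Fin 3 → ℂ}
    (hp : eval p P = 0) : ∃ q : Fin 3 → ℂ, eval q P = 0 ∧ grad P q ≠ 0 := by
  by_contra hcon
  push Not at hcon
  have hP0 : P ≠ 0 := hP.ne_zero
  have hdeg : 0 < P.totalDegree := by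
    by_contra h
    have h1 : P.totalDegree = 0 := by omega
    rw [totalDegree_eq_zero_iff_eq_C] at h1
    rw [h1, eval_C] at hp
    apply hP0
    rw [h1, hp, C_0]
  have h1 : ∀ i, pderiv i P = 0 := by
    intro i
    refine eq_zero_of_dvd (dvd_of_vanish hP fun z hz => ?_) (totalDegree_pderiv_lt P hdeg i)
    exact congrFun (hcon z hz) i
  apply hP0
  apply MvPolynomial.funext
  intro z
  have h2 : dir (z - p) P = 0 := by
    rw [dir]
    refine Finset.sum_eq_zero fun i _ => ?_
    rw [h1 i, mul_zero]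
  have h3 := inv_of_dir h2 p
  rw [add_sub_cancel, hp] at h3
  rw [h3, map_zero]

/-- If all gradients are parallel to `w`, they are nonzero. -/
theorem all_parallel {P : MvPolynomial (Fin 3) ℂ} (hP : Squarefree P) {w : Fin 3 → ℂ}
    (hw : w ≠ 0) (h : ∀ q : Fin 3 → ℂ, eval q P = 0 → ∃ c : ℂ, grad P q = c • w)
    {p : Fin 3 → ℂ} (hp : eval p P = 0) : ∃ c : ℂ, c ≠ 0 ∧ grad P p = c • w := by
  have hP0 : P ≠ 0 := hP.ne_zero
  have hdeg : 0 < P.totalDegree := by
    by_contra h
    have h1 : P.totalDegree = 0 := by omega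
    rw [totalDegree_eq_zero_iff_eq_C] at h1
    rw [h1, eval_C] at hp
    apply hP0
    rw [h1, hp, C_0]
  obtain ⟨i, hi⟩ := grad_ne_zero hP hw (fun v hv z => by
    refine inv_of_dir ?_ z
    refine eq_zero_of_dvd (dvd_of_vanish hP fun q hq => ?_) (totalDegree_dir_lt v P hdeg)
    rw [eval_dir]
    obtain ⟨c, hc⟩ := h q hq
    have h1 : ∀ i, v i * eval q (pderiv i P) = c * (w i * v i) := by
      intro i
      have := congrFun hc i
      simp only [grad, Pi.smul_apply, smul_eq_mul] at this
      rw [this]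
      ring
    simp only [h1, ← Finset.mul_sum]
    rw [hv, mul_zero]) hp
  obtain ⟨c, hc⟩ := h p hp
  refine ⟨c, ?_, hc⟩
  rintro rfl
  apply hi
  have := congrFun hc i
  simpa [grad] using this

end Pool.Agent.H89.IR
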