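import Pool.Agent.H89.IR.Stmt
import Pool.Agent.H89.FT

/-!
# The kernel of the integral operator (MP_7c460f_an)
-/

set_option autoImplicit false

namespace Pool.Agent.H89.IR

open MeasureTheory

theorem norm_ex (x : Fin 3 → ℝ) (z : Fin 3 → ℂ) :
    ‖ex x z‖ = Real.exp (-∑ i, (z i).im * x i) := by
  rw [ex, Complex.norm_exp]
  congr 1
  rw [Complex.mul_re, Complex.I_re, Complex.I_im, Complex.im_sum]
  simp

theorem ex_add (x : Fin 3 → ℝ) (u v : Fin 3 → ℂ) : ex x (u + v) = ex x u * ex x v := by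
  rw [ex, ex, ex, ← Complex.exp_add]
  congr 1
  simp only [Pi.add_apply, add_mul, Finset.sum_add_distrib, mul_add]

theorem continuous_ex (x : Fin 3 → ℝ) : Continuous (ex x) := by
  unfold ex
  fun_prop

/-- the vertices of a cube -/
def pt (R : ℝ) (ε : Fin 3 → Bool) : Fin 3 → ℝ := fun i => if ε i then R else -R

theorem norm_ex_le {R : ℝ} {x : Fin 3 → ℝ} (hx : ‖x‖ ≤ R) (z : Fin 3 → ℂ) :
    ‖ex x z‖ ≤ ∑ ε : Fin 3 → Bool, ‖ex (pt R ε) z‖ := by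
  refine le_trans ?_ (Finset.single_le_sum (f := fun ε : Fin 3 → Bool => ‖ex (pt R ε) z‖)
    (fun _ _ => norm_nonneg _)
    (Finset.mem_univ (fun i => decide ((z i).im ≤ 0) : Fin 3 → Bool)))
  simp only [norm_ex]
  refine Real.exp_le_exp.2 (neg_le_neg (Finset.sum_le_sum fun i _ => ?_))
  have h1 : |x i| ≤ R := (norm_le_pi_norm x i).trans hx
  rw [abs_le] at h1
  by_cases hi : (z i).im ≤ 0
  · simp only [pt, hi, decide_true, if_true]
    nlinarith [h1.1, h1.2]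
  · simp only [pt, hi, decide_false]
    push Not at hi
    simp only [Bool.false_eq_true, if_false]
    nlinarith [h1.1, h1.2]

theorem norm_FT_le {D : Set (Fin 3 → ℝ)} {f : (Fin 3 → ℝ) → ℂ} {R : ℝ} (hD : MeasurableSet D)
    (hf : IntegrableOn f D) (hR : ∀ x ∈ D, ‖x‖ ≤ R) (z : Fin 3 → ℂ) :
    ‖FT D f z‖ ≤ (∫ x in D, ‖f x‖) * ∑ ε : Fin 3 → Bool, ‖ex (pt R ε) z‖ := by
  unfold FT
  refine (norm_integral_le_integral_norm _).trans ?_
  rw [← integral_mul_const]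
  have hR' : ∀ᵐ x ∂(volume.restrict D), ‖x‖ ≤ R := by
    rw [ae_restrict_iff' hD]
    exact Filter.Eventually.of_forall hR
  refine integral_mono_ae (H89.integrable_FL hf hR' z).norm (hf.norm.mul_const _) ?_
  filter_upwards [hR'] with x hx
  rw [norm_mul]
  exact mul_le_mul_of_nonneg_left (norm_ex_le hx z) (norm_nonneg _)

/-- the constant of the kernel bound -/
theorem kernel_le {D : Set (Fin 3 → ℝ)} {f : (Fin 3 → ℝ) → ℂ} (hD : MeasurableSet D)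
    (hb : Bornology.IsBounded D) (hf : IntegrableOn f D) :
    ∃ (C R : ℝ), 0 ≤ C ∧ ∀ u v : Fin 3 → ℂ,
      ‖FT D f (u + v)‖ ≤ ∑ ε : Fin 3 → Bool, C * ‖ex (pt R ε) u‖ * ‖ex (pt R ε) v‖ := by
  obtain ⟨R, hR⟩ := hb.subset_closedBall 0
  refine ⟨∫ x in D, ‖f x‖, R, integral_nonneg fun _ => norm_nonneg _, fun u v => ?_⟩
  refine (norm_FT_le hD hf (fun x hx => by simpa using hR hx) (u + v)).trans (le_of_eq ?_)
  rw [Finset.mul_sum]
  refine Finset.sum_congr rfl fun ε _ => ?_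
  rw [ex_add, norm_mul, mul_assoc]

theorem continuous_FT {D : Set (Fin 3 → ℝ)} {f : (Fin 3 → ℝ) → ℂ} (hD : MeasurableSet D)
    (hb : Bornology.IsBounded D) (hf : IntegrableOn f D) : Continuous (FT D f) := by
  obtain ⟨R, hR⟩ := hb.subset_closedBall 0
  have hR' : ∀ᵐ x ∂(volume.restrict D), ‖x‖ ≤ R := by
    rw [ae_restrict_iff' hD]
    exact Filter.Eventually.of_forall fun x hx => by simpa using hR hx
  exact H89.FL_continuous hf hR'

variable {m₁ m₂ : Measure (Fin 3 → ℂ)}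

theorem finite_of_ex (h : ∀ x : Fin 3 → ℝ, MemLp (ex x) 2 m₁) : IsFiniteMeasure m₁ := by
  have h0 := h 0
  have h1 : ex 0 = fun _ => (1 : ℂ) := by
    funext z
    simp [ex]
  rw [h1, memLp_const_iff (by norm_num) (by norm_num)] at h0
  rcases h0 with h0 | h0
  · exact absurd h0 one_ne_zero
  · exact ⟨h0⟩

theorem memLp_kernel {F : (Fin 3 → ℂ) → ℂ} (hF : Continuous F) {C R : ℝ}
    (hC : ∀ u v : Fin 3 → ℂ,
      ‖F (u + v)‖ ≤ ∑ ε : Fin 3 → Bool, C * ‖ex (pt R ε) u‖ * ‖ex (pt R ε) v‖)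
    (h : ∀ x : Fin 3 → ℝ, MemLp (ex x) 2 m₁) (v : Fin 3 → ℂ) :
    MemLp (fun u => F (u + v)) 2 m₁ := by
  have hs : MemLp (fun u => ∑ ε : Fin 3 → Bool, C * ‖ex (pt R ε) u‖ * ‖ex (pt R ε) v‖) 2 m₁ := by
    refine memLp_finsetSum _ fun ε _ => ?_
    exact ((h (pt R ε)).norm.const_mul C).mul_const _
  refine hs.mono' (hF.comp (continuous_id.add continuous_const)).aestronglyMeasurable ?_
  exact Filter.Eventually.of_forall fun u => hC u v

theorem integrable_kernel {F : (Fin 3 → ℂ) → ℂ} (hF : Continuous F) {C R : ℝ}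
    (hC : ∀ u v : Fin 3 → ℂ,
      ‖F (u + v)‖ ≤ ∑ ε : Fin 3 → Bool, C * ‖ex (pt R ε) u‖ * ‖ex (pt R ε) v‖)
    (h : ∀ x : Fin 3 → ℝ, MemLp (ex x) 2 m₁) {φ : (Fin 3 → ℂ) → ℂ} (hφ : MemLp φ 2 m₁)
    (v : Fin 3 → ℂ) : Integrable (fun u => φ u * F (u + v)) m₁ :=
  hφ.integrable_mul (memLp_kernel hF hC h v)

theorem memLp_image {F : (Fin 3 → ℂ) → ℂ} (hF : Continuous F) {C R : ℝ}
    (hC : ∀ u v : Fin 3 → ℂ,
      ‖F (u + v)‖ ≤ ∑ ε : Fin 3 → Bool, C * ‖ex (pt R ε) u‖ * ‖ex (pt R ε) v‖)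
    (h₁ : ∀ x : Fin 3 → ℝ, MemLp (ex x) 2 m₁) (h₂ : ∀ x : Fin 3 → ℝ, MemLp (ex x) 2 m₂)
    (φ : Lp ℂ 2 m₁) : MemLp (fun v => ∫ u, φ u * F (u + v) ∂m₁) 2 m₂ := by
  have hfin := finite_of_ex h₁
  have hφ : MemLp φ 2 m₁ := Lp.memLp φ
  have hs : MemLp (fun v => ∑ ε : Fin 3 → Bool,
      (∫ u, ‖φ u‖ * (C * ‖ex (pt R ε) u‖) ∂m₁) * ‖ex (pt R ε) v‖) 2 m₂ := by
    refine memLp_finsetSum _ fun ε _ => ?_
    exact (h₂ (pt R ε)).norm.const_mul _
  have hmeas : StronglyMeasurable (fun v => ∫ u, φ u * F (u + v) ∂m₁) := by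
    have h1 : StronglyMeasurable (fun p : (Fin 3 → ℂ) × (Fin 3 → ℂ) => φ p.2 * F (p.2 + p.1)) := by
      refine ((Lp.stronglyMeasurable φ).comp_measurable measurable_snd).mul ?_
      exact (hF.comp (continuous_snd.add continuous_fst)).stronglyMeasurable
    exact h1.integral_prod_right'
  refine hs.mono' hmeas.aestronglyMeasurable (Filter.Eventually.of_forall fun v => ?_)
  have hint : ∀ ε : Fin 3 → Bool, Integrable (fun u => ‖φ u‖ * (C * ‖ex (pt R ε) u‖)) m₁ :=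
    fun ε => hφ.norm.integrable_mul ((h₁ (pt R ε)).norm.const_mul C)
  calc ‖∫ u, φ u * F (u + v) ∂m₁‖ ≤ ∫ u, ‖φ u * F (u + v)‖ ∂m₁ := norm_integral_le_integral_norm _
    _ ≤ ∫ u, ∑ ε : Fin 3 → Bool, ‖φ u‖ * (C * ‖ex (pt R ε) u‖) * ‖ex (pt R ε) v‖ ∂m₁ := by
        refine integral_mono (integrable_kernel hF hC h₁ hφ v).norm
          (integrable_finsetSum _ fun ε _ => (hint ε).mul_const _) fun u => ?_
        simp only
        rw [norm_mul]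
        refine (mul_le_mul_of_nonneg_left (hC u v) (norm_nonneg _)).trans (le_of_eq ?_)
        rw [Finset.mul_sum]
        refine Finset.sum_congr rfl fun ε _ => ?_
        ring
    _ = ∑ ε : Fin 3 → Bool,
      (∫ u, ‖φ u‖ * (C * ‖ex (pt R ε) u‖) ∂m₁) * ‖ex (pt R ε) v‖ := by
        rw [integral_finsetSum _ fun ε _ => (hint ε).mul_const _]
        refine Finset.sum_congr rfl fun ε _ => ?_
        rw [integral_mul_const]

theorem memLp_op {F : (Fin 3 → ℂ) → ℂ} (hF : Continuous F) {C R : ℝ}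
    (hC : ∀ u v : Fin 3 → ℂ,
      ‖F (u + v)‖ ≤ ∑ ε : Fin 3 → Bool, C * ‖ex (pt R ε) u‖ * ‖ex (pt R ε) v‖)
    (h₁ : ∀ x : Fin 3 → ℝ, MemLp (ex x) 2 m₁) (h₂ : ∀ x : Fin 3 → ℝ, MemLp (ex x) 2 m₂)
    {h : (Fin 3 → ℂ) → ℂ} (hh : MemLp h 2 m₁) :
    MemLp (fun v => ∫ u, h u * F (u + v) ∂m₁) 2 m₂ := by
  have h3 : (fun v => ∫ u, h u * F (u + v) ∂m₁) =
      fun v => ∫ u, (hh.toLp : Lp ℂ 2 m₁) u * F (u + v) ∂m₁ := by
    funext v
    refine integral_congr_ae ?_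
    filter_upwards [hh.coeFn_toLp] with u hu
    rw [hu]
  rw [h3]
  exact memLp_image hF hC h₁ h₂ _

end Pool.Agent.H89.IR
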