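import Mathlib
import Pool.Agent.H89.Rank

set_option autoImplicit false

namespace Pool.Agent.H89.IR

open Filter Topology MeasureTheory

variable {E : Type*} [NormedAddCommGroup E] [MeasurableSpace E] [BorelSpace E]

/-- The averages of a continuous function over shrinking balls converge. -/
theorem tendsto_average {m : Measure E} [IsFiniteMeasure m] {F : E → ℂ} (hF : Continuous F)
    {u : E} (hpos : ∀ r > 0, 0 < m (Metric.ball u r)) (v : E) :
    Tendsto (fun k : ℕ => ∫ x, (Metric.ball u (1 / ((k : ℝ) + 1))).indicator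
      (fun _ => (((m (Metric.ball u (1 / ((k : ℝ) + 1)))).toReal⁻¹ : ℝ) : ℂ)) x * F (x + v) ∂m)
      atTop (𝓝 (F (u + v))) := by
  rw [Metric.tendsto_atTop]
  intro ε hε
  have hcont : Continuous (fun x => F (x + v)) := hF.comp (continuous_id.add continuous_const)
  obtain ⟨δ, hδ, hclose⟩ := Metric.continuous_iff.mp hcont u (ε / 2) (half_pos hε)
  obtain ⟨N, hN⟩ := exists_nat_one_div_lt hδ
  refine ⟨N, fun k hk => ?_⟩
  set B := Metric.ball u (1 / ((k : ℝ) + 1)) with hB
  have hBm : MeasurableSet B := Metric.isOpen_ball.measurableSet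
  have hr : (0 : ℝ) < 1 / ((k : ℝ) + 1) := by positivity
  have hrδ : 1 / ((k : ℝ) + 1) < δ := by
    refine lt_of_le_of_lt ?_ hN
    apply one_div_le_one_div_of_le (by positivity)
    have : (N : ℝ) ≤ k := by exact_mod_cast hk
    linarith
  have hmB : 0 < (m B).toReal := ENNReal.toReal_pos (hpos _ hr).ne' (measure_ne_top m B)
  have h1 : ∀ x, B.indicator (fun _ => (((m B).toReal⁻¹ : ℝ) : ℂ)) x * F (x + v) =
      B.indicator (fun x => (((m B).toReal⁻¹ : ℝ) : ℂ) * F (x + v)) x := by
    intro x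
    by_cases hx : x ∈ B
    · rw [Set.indicator_of_mem hx, Set.indicator_of_mem hx]
    · rw [Set.indicator_of_notMem hx, Set.indicator_of_notMem hx, zero_mul]
  simp only [h1]
  rw [integral_indicator hBm, integral_const_mul]
  have hbd : ∀ x ∈ B, ‖F (x + v) - F (u + v)‖ ≤ ε / 2 := by
    intro x hx
    have h2 : dist x u < δ := lt_trans (Metric.mem_ball.mp hx) hrδ
    have h3 := hclose x h2
    rw [dist_eq_norm] at h3
    exact h3.le
  have hint : IntegrableOn (fun x => F (x + v)) B m := by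
    refine Integrable.mono' (g := fun _ => ‖F (u + v)‖ + ε / 2) (integrable_const _)
      hcont.aestronglyMeasurable ?_
    rw [ae_restrict_iff' hBm]
    refine Filter.Eventually.of_forall fun x hx => ?_
    have h2 := hbd x hx
    have h3 := norm_le_norm_add_norm_sub' (F (x + v)) (F (u + v))
    linarith
  have hdiff : (((m B).toReal⁻¹ : ℝ) : ℂ) * ∫ x in B, F (x + v) ∂m - F (u + v) =
      (((m B).toReal⁻¹ : ℝ) : ℂ) * ∫ x in B, (F (x + v) - F (u + v)) ∂m := by
    rw [integral_sub hint (integrable_const _), setIntegral_const, mul_sub]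
    congr 1
    have h4 : (((m B).toReal : ℝ) : ℂ) ≠ 0 := by exact_mod_cast hmB.ne'
    rw [Measure.real, Complex.real_smul]
    push_cast
    field_simp
  rw [dist_eq_norm, hdiff, norm_mul, Complex.norm_real, Real.norm_eq_abs,
    abs_of_pos (inv_pos.mpr hmB)]
  have h5 := norm_setIntegral_le_of_norm_le_const (μ := m) (s := B) (measure_lt_top m B) hbd
  calc (m B).toReal⁻¹ * ‖∫ x in B, (F (x + v) - F (u + v)) ∂m‖
      ≤ (m B).toReal⁻¹ * (ε / 2 * (m B).toReal) := by gcongr; exact h5
    _ = ε / 2 := by field_simp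
    _ < ε := half_lt_self hε

theorem det_zero_of_finite_rank {F : E → ℂ} (hF : Continuous F) {V₁ V₂ : Set E}
    {m₁ m₂ : Measure E} [IsFiniteMeasure m₁]
    (hpos₁ : ∀ u ∈ V₁, ∀ r > 0, 0 < m₁ (Metric.ball u r))
    (hpos₂ : ∀ v ∈ V₂, ∀ r > 0, 0 < m₂ (Metric.ball v r))
    {n : ℕ} {g : Fin n → E → ℂ}
    (hfin : ∀ h : E → ℂ, MemLp h 2 m₁ → ∃ c : Fin n → ℂ,
      (fun u₂ => ∫ u₁, h u₁ * F (u₁ + u₂) ∂m₁) =ᵐ[m₂] fun u₂ => ∑ k, c k * g k u₂)
    (u v : Fin (n + 1) → E) (hu : ∀ i, u i ∈ V₁) (hv : ∀ j, v j ∈ V₂) :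
    Matrix.det (Matrix.of fun i j => F (u i + v j)) = 0 := by
  -- test functions
  set h : ℕ → Fin (n + 1) → E → ℂ := fun k i =>
    (Metric.ball (u i) (1 / ((k : ℝ) + 1))).indicator
      (fun _ => (((m₁ (Metric.ball (u i) (1 / ((k : ℝ) + 1)))).toReal⁻¹ : ℝ) : ℂ)) with hh
  have hmem : ∀ k i, MemLp (h k i) 2 m₁ := fun k i =>
    memLp_indicator_const 2 Metric.isOpen_ball.measurableSet _ (Or.inr (measure_ne_top m₁ _))
  choose c hc using fun k i => hfin (h k i) (hmem k i)
  set good : Set E := {x | ∀ k i, ∫ u₁, h k i u₁ * F (u₁ + x) ∂m₁ = ∑ l, c k i l * g l x}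
    with hgood
  have hgood_ae : ∀ᵐ x ∂m₂, x ∈ good := by
    rw [hgood]
    have : ∀ᵐ x ∂m₂, ∀ k i, ∫ u₁, h k i u₁ * F (u₁ + x) ∂m₁ = ∑ l, c k i l * g l x := by
      rw [ae_all_iff]; intro k; rw [ae_all_iff]; intro i
      exact hc k i
    exact this
  have hstep : ∀ x : Fin (n + 1) → E, (∀ j, x j ∈ good) →
      Matrix.det (Matrix.of fun i j => F (u i + x j)) = 0 := by
    intro x hx
    have hk : ∀ k : ℕ, Matrix.det (Matrix.of fun i j =>
        ∫ u₁, h k i u₁ * F (u₁ + x j) ∂m₁) = 0 := by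
      intro k
      have h1 : (Matrix.of fun i j => ∫ u₁, h k i u₁ * F (u₁ + x j) ∂m₁) =
          (Matrix.of fun i l => c k i l) * (Matrix.of fun l j => g l (x j)) := by
        ext i j
        rw [Matrix.of_apply, hx j k i, Matrix.mul_apply]
        rfl
      rw [h1]
      exact det_mul_rect_zero _ _
    have hlim : Tendsto (fun k : ℕ => Matrix.det (Matrix.of fun i j =>
        ∫ u₁, h k i u₁ * F (u₁ + x j) ∂m₁)) atTop
        (𝓝 (Matrix.det (Matrix.of fun i j => F (u i + x j)))) := by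
      have h2 : Tendsto (fun k : ℕ => (fun i j => ∫ u₁, h k i u₁ * F (u₁ + x j) ∂m₁ :
          Fin (n + 1) → Fin (n + 1) → ℂ)) atTop (𝓝 (fun i j => F (u i + x j))) := by
        rw [tendsto_pi_nhds]; intro i; rw [tendsto_pi_nhds]; intro j
        exact tendsto_average hF (hpos₁ (u i) (hu i)) (x j)
      have hcont : Continuous (fun M : Fin (n + 1) → Fin (n + 1) → ℂ => (Matrix.of M).det) :=
        Continuous.matrix_det continuous_id
      exact (hcont.tendsto _).comp h2
    simp only [hk] at hlim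
    exact (tendsto_nhds_unique hlim tendsto_const_nhds)
  -- density
  set Z : Set (Fin (n + 1) → E) := {x | Matrix.det (Matrix.of fun i j => F (u i + x j)) = 0}
    with hZ
  have hZc : IsClosed Z := by
    refine isClosed_eq ?_ continuous_const
    refine Continuous.matrix_det ?_
    refine continuous_pi fun i => continuous_pi fun j => ?_
    refine hF.comp ?_
    fun_prop
  have hmemcl : v ∈ closure Z := by
    rw [Metric.mem_closure_iff]
    intro ε hε
    have h1 : ∀ j, ∃ x ∈ good, dist (v j) x < ε / 2 := by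
      intro j
      by_contra hcon
      push Not at hcon
      have hsub : Metric.ball (v j) (ε / 2) ⊆ goodᶜ := by
        intro x hx hxg
        have := hcon x hxg
        rw [Metric.mem_ball, dist_comm] at hx
        linarith
      have h2 : m₂ goodᶜ = 0 := hgood_ae
      have h3 := measure_mono_null hsub h2
      exact absurd h3 (hpos₂ (v j) (hv j) (ε / 2) (half_pos hε)).ne'
    choose x hx hxd using h1
    refine ⟨x, hstep x hx, ?_⟩
    refine lt_of_le_of_lt ((dist_pi_le_iff (half_pos hε).le).mpr fun j => ?_) (half_lt_self hε)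
    exact (hxd j).le
  rw [hZc.closure_eq] at hmemcl
  exact hmemcl

end Pool.Agent.H89.IR
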