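import Pool.Agent.H89.IR.Pair
import Pool.Agent.H89.IR.Rank
import Pool.Agent.H89.IR.Kern
import Pool.Agent.H89.FTInj

/-!
# The operator has infinite rank (MP_7c460f_an)
-/

set_option autoImplicit false

namespace Pool.Agent.H89.IR

open MeasureTheory

/-- Degenerate determinants imply that `F` vanishes on the sum set. -/
theorem vanish_sum {F : (Fin 3 → ℂ) → ℂ} (hF : H89.Nice F) {L₁ L₂ : MvPolynomial (Fin 3) ℂ}
    (hL₁ : L₁ ≠ 0) (hL₂ : L₂ ≠ 0) {n : ℕ}
    (hdet : ∀ u v : Fin (n + 1) → Fin 3 → ℂ, (∀ i, u i ∈ Zero L₁) → (∀ j, v j ∈ Zero L₂) →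
      Matrix.det (Matrix.of fun i j => F (u i + v j)) = 0)
    {a b : Fin 3 → ℂ} (ha : a ∈ Zero L₁) (hb : b ∈ Zero L₂) : F (a + b) = 0 := by
  have hN := hF.translate (a + b)
  set q : MvPolynomial (Fin 3) ℂ :=
    MvPolynomial.aeval (fun i => MvPolynomial.C (b i) - MvPolynomial.X i) L₂ with hq
  have hqe : ∀ z : Fin 3 → ℂ, MvPolynomial.eval z q = MvPolynomial.eval (b - z) L₂ := by
    intro z
    have h : ((MvPolynomial.eval z : MvPolynomial (Fin 3) ℂ →+* ℂ).comp
        ((MvPolynomial.aeval (fun i => (MvPolynomial.C (b i) - MvPolynomial.X i :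
          MvPolynomial (Fin 3) ℂ)) :
          MvPolynomial (Fin 3) ℂ →ₐ[ℂ] MvPolynomial (Fin 3) ℂ) : MvPolynomial (Fin 3) ℂ →+* _)) =
        MvPolynomial.eval (b - z) := by
      apply MvPolynomial.ringHom_ext
      · intro r; simp
      · intro i; simp
    exact RingHom.congr_fun h L₂
  have hgood : H89.GoodPair (fun z => F (a + b + z)) n (H89.tr a L₁) q := by
    refine ⟨H89.tr_ne_zero hL₁ _, ?_, ?_, ?_, ?_⟩
    · intro h0
      apply hL₂
      apply MvPolynomial.funext
      intro z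
      have := hqe (b - z)
      rw [h0, map_zero, sub_sub_cancel] at this
      rw [← this, map_zero]
    · rw [H89.eval_tr, zero_add]
      exact ha
    · rw [hqe, sub_zero]
      exact hb
    · intro u v hu hv
      have h1 := hdet (fun i => u i + a) (fun j => b - v j) (fun i => by
          have := hu i
          rw [H89.eval_tr] at this
          exact this) (fun j => by
          have := hv j
          rw [hqe] at this
          exact this)
      have h2 : (Matrix.of fun i j => F (u i + a + (b - v j))) =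
          Matrix.of fun i j => F (a + b + (u i - v j)) := by
        ext i j
        rw [Matrix.of_apply, Matrix.of_apply]
        congr 1
        abel
      rw [h2] at h1
      exact h1
  have h0 := H89.vanish_zero hN hgood
  simpa using h0

/-- A function that vanishes on the sum set of two transversal hypersurfaces is zero. -/
theorem zero_of_sum {F : (Fin 3 → ℂ) → ℂ} (hF : H89.Nice F) {L₁ L₂ : MvPolynomial (Fin 3) ℂ}
    (hL₁ : L₁ ≠ 0) (hL₂ : L₂ ≠ 0) (ht : Transversal (Zero L₁) (Zero L₂))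
    (hv : ∀ a ∈ Zero L₁, ∀ b ∈ Zero L₂, F (a + b) = 0) (z : Fin 3 → ℂ) : F z = 0 := by
  obtain ⟨P₁, hs₁, he₁⟩ := exists_sqf hL₁
  obtain ⟨P₂, hs₂, he₂⟩ := exists_sqf hL₂
  rw [he₁, he₂] at ht hv
  obtain ⟨p₁, p₂, hp₁, hp₂, hlin⟩ := exists_pair hs₁ hs₂ ht
  have hnear := H89.sum_nhds
    (V₁ := {z : EuclideanSpace ℂ (Fin 3) | MvPolynomial.eval (WithLp.ofLp z) P₁ = 0})
    (V₂ := {z : EuclideanSpace ℂ (Fin 3) | MvPolynomial.eval (WithLp.ofLp z) P₂ = 0})
    (p₁ := WithLp.toLp 2 p₁) (p₂ := WithLp.toLp 2 p₂) hp₁ hp₂ isOpen_univ isOpen_univ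
    (Set.mem_univ _) (Set.mem_univ _) rfl rfl hlin
  set z₀ : Fin 3 → ℂ := p₁ + p₂ with hz₀
  have hline := hF.ent z₀ (z - z₀)
  have hev : ∀ᶠ T in nhds (0 : ℂ), F (z₀ + T • (z - z₀)) = 0 := by
    have hpath : Filter.Tendsto (fun T : ℂ => z₀ + T • (z - z₀)) (nhds 0) (nhds z₀) := by
      have hc : Continuous (fun T : ℂ => z₀ + T • (z - z₀)) := by fun_prop
      have := hc.tendsto 0
      simpa using this
    filter_upwards [hpath.eventually hnear] with T hT
    obtain ⟨a, b, ha, hb, hab⟩ := hT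
    rw [← hab]
    exact hv _ ha _ hb
  have := H89.eq_zero_of_near_zero hline hev 1
  simpa using this

end Pool.Agent.H89.IR
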