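import Mathlib

/-!
# An integral operator on complex algebraic varieties (MP_7c460f_an): definitions
-/

set_option autoImplicit false

namespace Pool.Agent.H89.IR

open MeasureTheory

/-- the zero set in `ℂ³` of a polynomial -/
def Zero (L : MvPolynomial (Fin 3) ℂ) : Set (Fin 3 → ℂ) := {z | MvPolynomial.eval z L = 0}

/-- the tangent space of `V` at `p`: the vectors that are annihilated by the differential at `p` of
every polynomial that vanishes on `V` -/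
def Tan (V : Set (Fin 3 → ℂ)) (p : Fin 3 → ℂ) : Set (Fin 3 → ℂ) :=
  {v | ∀ Q : MvPolynomial (Fin 3) ℂ, (∀ z ∈ V, MvPolynomial.eval z Q = 0) →
    ∑ i, MvPolynomial.eval p (MvPolynomial.pderiv i Q) * v i = 0}

/-- for some points the two tangent spaces together span `ℂ³` -/
def Transversal (V₁ V₂ : Set (Fin 3 → ℂ)) : Prop :=
  ∃ p₁ ∈ V₁, ∃ p₂ ∈ V₂, ∀ w : Fin 3 → ℂ, ∃ v₁ ∈ Tan V₁ p₁, ∃ v₂ ∈ Tan V₂ p₂, w = v₁ + v₂

/-- the function `z ↦ exp (i z·x)` -/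
noncomputable def ex (x : Fin 3 → ℝ) (z : Fin 3 → ℂ) : ℂ :=
  Complex.exp (Complex.I * ∑ i, z i * (x i : ℂ))

/-- `F(z) = ∫_D f(x) exp (i z·x) dx` -/
noncomputable def FT (D : Set (Fin 3 → ℝ)) (f : (Fin 3 → ℝ) → ℂ) (z : Fin 3 → ℂ) : ℂ :=
  ∫ x in D, f x * ex x z

/-- `m` is a Borel measure on `ℂ³` carried by `V`, and every nonempty relatively open subset of `V`
has positive measure -/
structure PosOn (V : Set (Fin 3 → ℂ)) (m : Measure (Fin 3 → ℂ)) : Prop where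
  carried : m Vᶜ = 0
  pos : ∀ U : Set (Fin 3 → ℂ), IsOpen U → (V ∩ U).Nonempty → 0 < m (V ∩ U)

/-- `T h (u₂) = ∫ h(u₁) F(u₁ + u₂) dm(u₁)`, where `F = FT D f` -/
noncomputable def Op (D : Set (Fin 3 → ℝ)) (f : (Fin 3 → ℝ) → ℂ) (m : Measure (Fin 3 → ℂ))
    (h : (Fin 3 → ℂ) → ℂ) (u₂ : Fin 3 → ℂ) : ℂ :=
  ∫ u₁, h u₁ * FT D f (u₁ + u₂) ∂m

end Pool.Agent.H89.IR
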