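import Pool.Agent.H89.IR.Alg
import Pool.Agent.H89.IR.Stmt

/-!
# Two points with independent gradients (MP_7c460f_an)
-/

set_option autoImplicit false

namespace Pool.Agent.H89.IR

open MvPolynomial

theorem exists_sqf {L : MvPolynomial (Fin 3) ℂ} (hL : L ≠ 0) :
    ∃ P : MvPolynomial (Fin 3) ℂ, Squarefree P ∧ Zero L = Zero P := by
  obtain ⟨P, n, hs, h1, h2⟩ := exists_squarefree_dvd_pow_of_ne_zero hL
  refine ⟨P, hs, ?_⟩
  ext z
  constructor
  · intro hz
    obtain ⟨Q, hQ⟩ := h2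
    have h3 : eval z (P ^ n) = 0 := by
      rw [hQ, map_mul, show eval z L = 0 from hz, zero_mul]
    rw [map_pow] at h3
    have hn : n ≠ 0 := by
      rintro rfl
      rw [pow_zero] at h3
      exact one_ne_zero h3
    exact (pow_eq_zero_iff hn).1 h3
  · intro hz
    obtain ⟨Q, hQ⟩ := h1
    show eval z L = 0
    rw [hQ, map_mul, show eval z P = 0 from hz, zero_mul]

theorem parallel_of_not {x w : Fin 3 → ℂ} (hw : w ≠ 0) (h : ¬ LinearIndependent ℂ ![x, w]) :
    ∃ c : ℂ, x = c • w := by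
  rw [LinearIndependent.pair_iff] at h
  push Not at h
  obtain ⟨s, t, h1, h2⟩ := h
  have hs : s ≠ 0 := by
    intro hs
    have h3 : t • w = 0 := by rwa [hs, zero_smul, zero_add] at h1
    exact h2 hs ((smul_eq_zero.1 h3).resolve_right hw)
  refine ⟨-(s⁻¹ * t), ?_⟩
  have h4 : s • x = -(t • w) := eq_neg_of_add_eq_zero_left h1
  have h5 : x = s⁻¹ • (s • x) := by rw [smul_smul, inv_mul_cancel₀ hs, one_smul]
  rw [h5, h4, neg_smul, smul_neg, smul_smul]

theorem exists_pair {P₁ P₂ : MvPolynomial (Fin 3) ℂ} (h₁ : Squarefree P₁) (h₂ : Squarefree P₂)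
    (ht : Transversal (Zero P₁) (Zero P₂)) :
    ∃ p₁ p₂ : Fin 3 → ℂ, eval p₁ P₁ = 0 ∧ eval p₂ P₂ = 0 ∧
      LinearIndependent ℂ ![grad P₁ p₁, grad P₂ p₂] := by
  obtain ⟨a, ha, b, hb, hab⟩ := ht
  by_contra hcon
  push Not at hcon
  obtain ⟨q, hq, hw⟩ := exists_grad_ne h₂ hb
  set w := grad P₂ q with hwdef
  obtain ⟨c, hc, hca⟩ := all_parallel h₁ hw
    (fun p hp => parallel_of_not hw (hcon p q hp hq)) ha
  have hcw : c • w ≠ 0 := smul_ne_zero hc hw
  obtain ⟨d, hd, hdb⟩ := all_parallel h₂ hw (fun p hp => by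
    have h3 : ¬ LinearIndependent ℂ ![grad P₂ p, c • w] := by
      intro h4
      apply hcon a p ha hp
      rw [hca]
      rw [LinearIndependent.pair_iff] at h4 ⊢
      intro s t hst
      have := h4 t s (by rw [add_comm]; exact hst)
      exact ⟨this.2, this.1⟩
    obtain ⟨e, he⟩ := parallel_of_not hcw h3
    exact ⟨e * c, by rw [he, smul_smul]⟩) hb
  have key : ∀ (P : MvPolynomial (Fin 3) ℂ) (p : Fin 3 → ℂ) (e : ℂ), e ≠ 0 →
      grad P p = e • w → ∀ v ∈ Tan (Zero P) p, ∑ i, w i * v i = 0 := by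
    intro P p e he hP v hv
    have h3 := hv P (fun z hz => hz)
    have h4 : ∀ i, eval p (pderiv i P) * v i = e * (w i * v i) := by
      intro i
      have := congrFun hP i
      simp only [grad, Pi.smul_apply, smul_eq_mul] at this
      rw [this]
      ring
    simp only [h4, ← Finset.mul_sum] at h3
    exact (mul_eq_zero.1 h3).resolve_left he
  obtain ⟨k, hk⟩ := Function.ne_iff.1 hw
  obtain ⟨v₁, hv₁, v₂, hv₂, h5⟩ := hab (Pi.single k 1)
  have h6 : ∑ i, w i * (Pi.single k (1 : ℂ) : Fin 3 → ℂ) i = 0 := by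
    rw [h5]
    simp only [Pi.add_apply, mul_add, Finset.sum_add_distrib]
    rw [key P₁ a c hc hca v₁ hv₁, key P₂ b d hd hdb v₂ hv₂, add_zero]
  rw [Finset.sum_eq_single k] at h6
  · rw [Pi.single_eq_same, mul_one] at h6
    exact hk h6
  · intro i _ hi
    rw [Pi.single_eq_of_ne hi, mul_zero]
  · intro h
    exact absurd (Finset.mem_univ k) h

end Pool.Agent.H89.IR
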